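import Pool.Agent.Helper65.CS.Goals

/-!
# Packet CS-COD: a restriction under which the canonical decision tree is deep has a code
-/

namespace Pool.Agent.Helper5.CS

open Pool.Agent.Helper78.DT Pool.Agent.Helper65.CS
open scoped Classical

variable {V : Type} [DecidableEq V]

theorem cw_nonneg' (G : Finset V → ℝ) (hG : ∀ A, 0 ≤ G A) :
    ∀ (f : DL V) (z : V → Bool) (u : ℕ) (A : Finset V), 0 ≤ cw G f z u A := by
  intro f
  induction f with
  | nil =>
    intro z u A
    cases u with
    | zero => rw [cw]; exact hG A
    | succ u => rw [cw]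
  | cons e f ih =>
    intro z u A
    cases u with
    | zero => rw [cw]; exact hG A
    | succ u =>
      rw [cw]
      split_ifs with h
      · refine Finset.sum_nonneg fun B _ => Finset.sum_nonneg fun D _ => ?_
        split_ifs
        · exact ih _ _ _
        · exact le_rfl
      · exact ih _ _ _

theorem cw_ge (G : Finset V → ℝ) (hG : ∀ A, 0 ≤ G A) (e : Tm V × Bool) (f : DL V)
    (z : V → Bool) (u : ℕ) (A : Finset V) (B D : Tm V) (hs : Sat e.1 z) (hB : B ⊆ e.1)
    (hD : D ⊆ B) (hBn : B.Nonempty) (hu : B.card ≤ u) (hdis : Disjoint (vr B) A) :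
    cw G f (flp D z) (u - B.card) (A ∪ vr B) ≤ cw G (e :: f) z u A := by
  have hBc : 1 ≤ B.card := hBn.card_pos
  obtain ⟨u', rfl⟩ : ∃ u', u = u' + 1 := ⟨u - 1, by omega⟩
  rw [cw.eq_3, if_pos hs]
  have hnn : ∀ B' D' : Tm V, 0 ≤ (if B'.Nonempty ∧ B'.card ≤ u' + 1 ∧ Disjoint (vr B') A then
      cw G f (flp D' z) (u' + 1 - B'.card) (A ∪ vr B') else 0) := by
    intro B' D'
    split_ifs
    · exact cw_nonneg' G hG _ _ _ _
    · exact le_rfl
  have h1 := Finset.single_le_sum (f := fun B' => ∑ D' ∈ B'.powerset,
      (if B'.Nonempty ∧ B'.card ≤ u' + 1 ∧ Disjoint (vr B') A then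
      cw G f (flp D' z) (u' + 1 - B'.card) (A ∪ vr B') else 0)) (s := e.1.powerset)
      (fun B' _ => Finset.sum_nonneg fun D' _ => hnn B' D') (Finset.mem_powerset.2 hB)
  have h2 := Finset.single_le_sum (f := fun D' =>
      (if B.Nonempty ∧ B.card ≤ u' + 1 ∧ Disjoint (vr B) A then
      cw G f (flp D' z) (u' + 1 - B.card) (A ∪ vr B) else 0)) (s := B.powerset)
      (fun D' _ => hnn B D') (Finset.mem_powerset.2 hD)
  refine le_trans ?_ (le_trans h2 h1)
  rw [if_pos ⟨hBn, hu, hdis⟩]

theorem cod : CodStmt := by
  intro V _ _ f
  induction f with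
  | nil =>
    intro ρ c u0 _ hc hd
    rw [dep] at hd
    omega
  | cons e f ih =>
    intro ρ c u0 hCL hc hd hw
    have hCLf : CL f := fun e' he' => hCL e' (List.mem_cons_of_mem _ he')
    have hwf : ∀ e' ∈ f, (fr ρ e'.1).card < u0 := fun e' he' => hw e' (List.mem_cons_of_mem _ he')
    have hwe : (fr ρ e.1).card < u0 := hw e List.mem_cons_self
    have hCe : Con e.1 := hCL e List.mem_cons_self
    by_cases hF : Fls ρ e.1
    · have hd' : c ≤ dep f ρ := by
        rw [dep, if_pos hF] at hd
        exact hd
      obtain ⟨u, A, σ, h1, h2, h3, h4, h5⟩ := ih ρ c u0 hCLf hc hd' hwf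
      refine ⟨u, A, σ, h1, h2, h3, h4, ?_⟩
      intro z hz hzA G hG A0 hA0
      have h6 := h5 z hz hzA G hG A0 hA0
      obtain ⟨u', rfl⟩ : ∃ u', u = u' + 1 := ⟨u - 1, by omega⟩
      have hns : ¬ Sat e.1 z := by
        intro hs
        obtain ⟨p, hp, hpe⟩ := hF
        have h7 := hz _ _ hpe
        have h8 := hs p hp
        rw [h8] at h7
        cases hb : p.2 <;> simp [hb] at h7
      rw [cw.eq_3, if_neg hns]
      exact h6
    · rw [dep, if_neg hF] at hd
      set U : Tm V := fr ρ e.1 with hU
      have hUe : U ⊆ e.1 := Finset.filter_subset _ _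
      have hUfree : ∀ p ∈ U, ρ p.1 = none := fun p hp => (Finset.mem_filter.1 hp).2
      let σ₁ : V → Bool := fun v => decide ((v, true) ∈ U)
      have hσ₁ : ∀ p ∈ U, σ₁ p.1 = p.2 := by
        rintro ⟨v, b⟩ hp
        cases b with
        | true => simpa [σ₁] using hp
        | false =>
          have : (v, true) ∉ U := fun h => hCe v ⟨hUe h, hUe hp⟩
          simpa [σ₁] using this
      have hinj : ∀ p ∈ U, ∀ q ∈ U, p.1 = q.1 → p = q := by
        intro p hp q hq h
        refine Prod.ext h ?_
        rw [← hσ₁ p hp, ← hσ₁ q hq, h]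
      have hcard : (vr U).card = U.card :=
        Finset.card_image_of_injOn fun p hp q hq h => hinj p hp q hq h
      have hvr : ∀ v, v ∈ vr U ↔ ∃ p ∈ U, p.1 = v := fun v => by
        simp only [vr, Finset.mem_image]
      have hvfree : ∀ v ∈ vr U, ρ v = none := by
        intro v hv
        obtain ⟨p, hp, rfl⟩ := (hvr v).1 hv
        exact hUfree p hp
      have hSat : ∀ z : V → Bool, Ext ρ z → (∀ v ∈ vr U, z v = σ₁ v) → Sat e.1 z := by
        intro z hz hzU p hp
        cases hρ : ρ p.1 with
        | none =>
          have hpU : p ∈ U := Finset.mem_filter.2 ⟨hp, hρ⟩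
          rw [hzU p.1 ((hvr _).2 ⟨p, hpU, rfl⟩), hσ₁ p hpU]
        | some b =>
          have hb : b = p.2 := by
            by_contra hne
            refine hF ⟨p, hp, ?_⟩
            rw [hρ]
            cases b <;> cases hp2 : p.2 <;> simp_all
          rw [hz _ _ hρ, hb]
      have hdisj : ∀ A0 : Finset V, (∀ v ∈ A0, ρ v ≠ none) → Disjoint (vr U) A0 := by
        intro A0 hA0
        rw [Finset.disjoint_left]
        intro v hv hv0
        exact hA0 v hv0 (hvfree v hv)
      by_cases hcU : c ≤ U.card
      · refine ⟨U.card, vr U, σ₁, hcU, by omega, hcard, hvfree, ?_⟩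
        intro z hz hzA G hG A0 hA0
        have hUn : U.Nonempty := Finset.card_pos.1 (by omega)
        have h6 := cw_ge G hG e f z U.card A0 U ∅ (hSat z hz hzA) hUe (Finset.empty_subset _) hUn
          le_rfl (hdisj A0 hA0)
        rw [Nat.sub_self, cw.eq_1] at h6
        exact h6
      · have hcU' : U.card < c := by omega
        obtain ⟨x, _, hx⟩ := Finset.exists_mem_eq_sup (Finset.univ : Finset (V → Bool))
          ⟨fun _ => true, Finset.mem_univ _⟩
          (fun x : V → Bool => if Sat U x then 0 else dep f (fx ρ U x))
        rw [hx] at hd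
        have hns : ¬ Sat U x := by
          intro hs
          simp only [if_pos hs] at hd
          omega
        simp only [if_neg hns] at hd
        have hρ' : ∀ v, fx ρ U x v = none → v ∉ vr U ∧ ρ v = none := by
          intro v hv
          unfold fx at hv
          split_ifs at hv with h
          exact ⟨h, hv⟩
        have hw' : ∀ e' ∈ f, (fr (fx ρ U x) e'.1).card < u0 := by
          intro e' he'
          refine lt_of_le_of_lt (Finset.card_le_card ?_) (hwf e' he')
          intro p hp
          rw [fr, Finset.mem_filter] at hp ⊢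
          exact ⟨hp.1, (hρ' _ hp.2).2⟩
        obtain ⟨u', A', σ', h1, h2, h3, h4, h5⟩ :=
          ih (fx ρ U x) (c - U.card) u0 hCLf (by omega) (by omega) hw'
        have hdis : Disjoint (vr U) A' := by
          rw [Finset.disjoint_left]
          intro v hv hvA
          exact (hρ' v (h4 v hvA)).1 hv
        refine ⟨U.card + u', vr U ∪ A', fun v => if v ∈ vr U then σ₁ v else σ' v, by omega,
          by omega, ?_, ?_, ?_⟩
        · rw [Finset.card_union_of_disjoint hdis, hcard, h3]
        · intro v hv
          rcases Finset.mem_union.1 hv with hv | hv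
          · exact hvfree v hv
          · exact (hρ' v (h4 v hv)).2
        · intro z hz hzA G hG A0 hA0
          have hUn : U.Nonempty := by
            by_contra hne
            rw [Finset.not_nonempty_iff_eq_empty] at hne
            refine hns ?_
            intro p hp
            rw [hne] at hp
            exact absurd hp (Finset.notMem_empty p)
          have hzU : ∀ v ∈ vr U, z v = σ₁ v := by
            intro v hv
            have := hzA v (Finset.mem_union_left _ hv)
            rw [this]
            simp only [if_pos hv]
          let D : Tm V := U.filter fun p => x p.1 ≠ p.2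
          have hDU : D ⊆ U := Finset.filter_subset _ _
          have hvrD : ∀ v, v ∈ vr D ↔ ∃ p ∈ D, p.1 = v := fun v => by
            simp only [vr, Finset.mem_image]
          have hflU : ∀ v ∈ vr U, flp D z v = x v := by
            intro v hv
            obtain ⟨p, hp, rfl⟩ := (hvr v).1 hv
            have hzp : z p.1 = p.2 := by rw [hzU _ hv, hσ₁ p hp]
            unfold flp
            by_cases hxp : x p.1 = p.2
            · have hnD : p.1 ∉ vr D := by
                intro hD
                obtain ⟨q, hq, hqp⟩ := (hvrD _).1 hD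
                have hqU := hDU hq
                have hqp' : q = p := hinj q hqU p hp hqp
                rw [hqp'] at hq
                exact (Finset.mem_filter.1 hq).2 hxp
              rw [if_neg hnD, hzp, hxp]
            · have hD : p.1 ∈ vr D := (hvrD _).2 ⟨p, Finset.mem_filter.2 ⟨hp, hxp⟩, rfl⟩
              rw [if_pos hD, hzp]
              cases hb : p.2 <;> cases hb' : x p.1 <;> simp_all
          have hflN : ∀ v, v ∉ vr U → flp D z v = z v := by
            intro v hv
            have hnD : v ∉ vr D := by
              intro hD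
              obtain ⟨q, hq, rfl⟩ := (hvrD _).1 hD
              exact hv ((hvr _).2 ⟨q, hDU hq, rfl⟩)
            unfold flp
            rw [if_neg hnD]
          have hext : Ext (fx ρ U x) (flp D z) := by
            intro v b hvb
            unfold fx at hvb
            split_ifs at hvb with h
            · rw [hflU v h]
              simpa using hvb
            · rw [hflN v h]
              exact hz v b hvb
          have hagr : ∀ v ∈ A', flp D z v = σ' v := by
            intro v hv
            have hvU : v ∉ vr U := fun h => Finset.disjoint_left.1 hdis h hv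
            rw [hflN v hvU, hzA v (Finset.mem_union_right _ hv)]
            simp only [if_neg hvU]
          have hA0' : ∀ v ∈ A0 ∪ vr U, fx ρ U x v ≠ none := by
            intro v hv hn
            rcases Finset.mem_union.1 hv with hv | hv
            · exact hA0 v hv (hρ' v hn).2
            · exact (hρ' v hn).1 hv
          have h6 := h5 (flp D z) hext hagr G hG (A0 ∪ vr U) hA0'
          have h7 := cw_ge G hG e f z (U.card + u') A0 U D (hSat z hz hzU) hUe hDU hUn
            (by omega) (hdisj A0 hA0)
          rw [Nat.add_sub_cancel_left] at h7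
          rw [← Finset.union_assoc]
          exact le_trans h6 h7

end Pool.Agent.Helper5.CS
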